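import Mathlib

/-!
# The germs `f_{a,b}`, `a ≠ 0`, form one contact class

With `u = x - λ y²` the ideal of `f_{a,b}` is `(u² + 2 λ y² u, y³ u + a y^{p+5} + y^{p+6})` if
`p ≥ 3` (it contains `y^{p+7}`), so `b` is irrelevant.  The automorphisms
`u ↦ (1 + c y) u + κ y^{p+3} + κ₂ y^{p+4}` change the coefficient of `y^{p+6}` arbitrarily, and a
scaling normalises the coefficient of `y^{p+5}`.  For `p = 2` the ideal is
`(u², ε y³ u + y⁷ w)` with units `ε, w ∈ F[[y]]`, and `u ↦ w u` and `u ↦ ε u` normalise both to `1`.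
-/

set_option autoImplicit false

open MvPowerSeries

universe v

namespace Pool.Agent.Results.MP_65bbe4_ag.OneContactClass

variable {F : Type v} [Field F]

/-- the ring `F[[x, y]]` -/
abbrev R (F : Type v) : Type v := MvPowerSeries (Fin 2) F

/-- Contact equivalence of pairs `f, g ∈ F[[x, y]]²`: `g = U · φ(f)` for some `U ∈ GL(2, F[[x, y]])`
and some `F`-algebra automorphism `φ` of `F[[x, y]]`. -/
def ContactEquiv {F : Type v} [Field F] (f g : Fin 2 → MvPowerSeries (Fin 2) F) : Prop :=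
  ∃ (U : Matrix.GeneralLinearGroup (Fin 2) (MvPowerSeries (Fin 2) F))
    (φ : MvPowerSeries (Fin 2) F ≃ₐ[F] MvPowerSeries (Fin 2) F),
    g = (U : Matrix (Fin 2) (Fin 2) (MvPowerSeries (Fin 2) F)).mulVec fun i => φ (f i)

/-- the germ `f_{a,b} = (x² + y⁴, y⁵ + λ x y³ + a x y^{p+3} + x y^{p+4} + b x y^{2p+3})` -/
noncomputable def germ {F : Type v} [Field F] (p : ℕ) (lam a b : F) :
    Fin 2 → MvPowerSeries (Fin 2) F :=
  ![X 0 ^ 2 + X 1 ^ 4,
    X 1 ^ 5 + C lam * X 0 * X 1 ^ 3 + C a * X 0 * X 1 ^ (p + 3) + X 0 * X 1 ^ (p + 4) +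
      C b * X 0 * X 1 ^ (2 * p + 3)]

/-- `V` is a Zariski-open subset of `F⁴` -/
def ZariskiOpen {F : Type v} [Field F] (V : Set (Fin 4 → F)) : Prop :=
  ∃ S : Set (MvPolynomial (Fin 4) F), V = {v | ∃ P ∈ S, MvPolynomial.eval v P ≠ 0}

/-! ### Contact equivalence in coordinates -/

/-- contact equivalence of two pairs, in coordinates -/
def CE (f₁ f₂ g₁ g₂ : R F) : Prop :=
  ∃ (φ : R F ≃ₐ[F] R F) (α β γ δ : R F), IsUnit (α * δ - β * γ) ∧
    g₁ = α * φ f₁ + β * φ f₂ ∧ g₂ = γ * φ f₁ + δ * φ f₂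

lemma CE.symm {f₁ f₂ g₁ g₂ : R F} (h : CE f₁ f₂ g₁ g₂) : CE g₁ g₂ f₁ f₂ := by
  obtain ⟨φ, α, β, γ, δ, ⟨D, hD⟩, h1, h2⟩ := h
  have hinv : (↑D⁻¹ : R F) * (α * δ - β * γ) = 1 := by rw [← hD]; simp
  have e1 : φ f₁ = ↑D⁻¹ * (δ * g₁ - β * g₂) := by
    rw [h1, h2]
    linear_combination (-(φ f₁)) * hinv
  have e2 : φ f₂ = ↑D⁻¹ * (α * g₂ - γ * g₁) := by
    rw [h1, h2]
    linear_combination (-(φ f₂)) * hinv
  refine ⟨φ.symm, φ.symm (↑D⁻¹ * δ), φ.symm (-(↑D⁻¹ * β)), φ.symm (-(↑D⁻¹ * γ)),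
    φ.symm (↑D⁻¹ * α), ?_, ?_, ?_⟩
  · rw [← map_mul, ← map_mul, ← map_sub]
    refine IsUnit.map _ ?_
    have : (↑D⁻¹ : R F) * δ * (↑D⁻¹ * α) - -(↑D⁻¹ * β) * -(↑D⁻¹ * γ) = ↑D⁻¹ := by
      linear_combination (↑D⁻¹ : R F) * hinv
    rw [this]
    exact Units.isUnit _
  · rw [← map_mul, ← map_mul, ← map_add]
    rw [AlgEquiv.eq_symm_apply, e1]
    ring
  · rw [← map_mul, ← map_mul, ← map_add]
    rw [AlgEquiv.eq_symm_apply, e2]
    ring

lemma CE.trans {f₁ f₂ g₁ g₂ h₁ h₂ : R F} (h : CE f₁ f₂ g₁ g₂) (h' : CE g₁ g₂ h₁ h₂) :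
    CE f₁ f₂ h₁ h₂ := by
  obtain ⟨φ, α, β, γ, δ, hD, e1, e2⟩ := h
  obtain ⟨ψ, α', β', γ', δ', hD', e1', e2'⟩ := h'
  refine ⟨φ.trans ψ, α' * ψ α + β' * ψ γ, α' * ψ β + β' * ψ δ, γ' * ψ α + δ' * ψ γ,
    γ' * ψ β + δ' * ψ δ, ?_, ?_, ?_⟩
  · have : (α' * ψ α + β' * ψ γ) * (γ' * ψ β + δ' * ψ δ) -
        (α' * ψ β + β' * ψ δ) * (γ' * ψ α + δ' * ψ γ) =
        (α' * δ' - β' * γ') * ψ (α * δ - β * γ) := by
      rw [map_sub, map_mul, map_mul]; ring
    rw [this]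
    exact hD'.mul (hD.map ψ)
  · rw [e1', e1, e2]
    simp only [map_add, map_mul, AlgEquiv.trans_apply]
    ring
  · rw [e2', e1, e2]
    simp only [map_add, map_mul, AlgEquiv.trans_apply]
    ring

lemma CE.of_coeffs {f₁ f₂ g₁ g₂ : R F} (α β γ δ : R F) (hD : constantCoeff (α * δ - β * γ) ≠ 0)
    (h1 : g₁ = α * f₁ + β * f₂) (h2 : g₂ = γ * f₁ + δ * f₂) : CE f₁ f₂ g₁ g₂ :=
  ⟨AlgEquiv.refl, α, β, γ, δ, by rw [MvPowerSeries.isUnit_iff_constantCoeff]; exact hD.isUnit,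
    by simpa using h1, by simpa using h2⟩

lemma CE.of_aut {f₁ f₂ : R F} (φ : R F ≃ₐ[F] R F) : CE f₁ f₂ (φ f₁) (φ f₂) :=
  ⟨φ, 1, 0, 0, 1, by simp, by simp, by simp⟩

lemma contactEquiv_of_CE {f g : Fin 2 → R F} (h : CE (f 0) (f 1) (g 0) (g 1)) :
    ContactEquiv f g := by
  obtain ⟨φ, α, β, γ, δ, hD, e1, e2⟩ := h
  have hdet : IsUnit (!![α, β; γ, δ] : Matrix (Fin 2) (Fin 2) (R F)).det := by
    rw [Matrix.det_fin_two_of]; exact hD
  refine ⟨Matrix.GeneralLinearGroup.mk'' _ hdet, φ, ?_⟩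
  have hU : ((Matrix.GeneralLinearGroup.mk'' _ hdet : Matrix.GeneralLinearGroup (Fin 2) (R F)) :
      Matrix (Fin 2) (Fin 2) (R F)) = !![α, β; γ, δ] := rfl
  rw [hU]
  funext i
  fin_cases i
  · simp [Matrix.mulVec, dotProduct, Fin.sum_univ_two, e1]
  · simp [Matrix.mulVec, dotProduct, Fin.sum_univ_two, e2]

/-! ### Automorphisms of `F[[x, y]]` -/

lemma exists_aut {a b : Fin 2 → R F} (ha : HasSubst a) (hb : HasSubst b)
    (h1 : ∀ i, substAlgHom (R := F) hb (a i) = X i) (h2 : ∀ i, substAlgHom (R := F) ha (b i) = X i) :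
    ∃ φ : R F ≃ₐ[F] R F, ∀ i, φ (X i) = a i := by
  have key : ∀ {a b : Fin 2 → R F} (ha : HasSubst a) (hb : HasSubst b),
      (∀ i, substAlgHom (R := F) ha (b i) = X i) →
      (substAlgHom (R := F) ha).comp (substAlgHom (R := F) hb) = AlgHom.id F _ := by
    intro a b ha hb h
    apply AlgHom.ext
    intro f
    rw [AlgHom.comp_apply, substAlgHom_apply, substAlgHom_apply, subst_comp_subst_apply hb ha]
    have : (fun s => subst a (b s)) = (X : Fin 2 → R F) := by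
      funext i
      rw [← h i, substAlgHom_apply]
    rw [this, subst_self]
    rfl
  exact ⟨AlgEquiv.ofAlgHom (substAlgHom (R := F) ha) (substAlgHom (R := F) hb)
    (key ha hb h2) (key hb ha h1), fun i => by
      change substAlgHom (R := F) ha (X i) = a i
      exact substAlgHom_X ha i⟩

lemma map_C (φ : R F →ₐ[F] R F) (c : F) : φ (C c) = C c := by
  have := φ.commutes c
  rwa [MvPowerSeries.algebraMap_apply] at this

lemma map_C' (φ : R F ≃ₐ[F] R F) (c : F) : φ (C c) = C c := map_C (φ : R F →ₐ[F] R F) c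

/-- `L` is a power series in `y` -/
def YOnly (L : R F) : Prop :=
  ∀ (b : Fin 2 → R F) (hb : HasSubst b), b 1 = X 1 → substAlgHom (R := F) hb L = L

lemma YOnly.C (c : F) : YOnly (C c : R F) := fun _ _ _ => map_C _ c

lemma YOnly.X : YOnly (X 1 : R F) := fun b hb h => by rw [substAlgHom_X, h]

lemma YOnly.add {L M : R F} (hL : YOnly L) (hM : YOnly M) : YOnly (L + M) := fun b hb h => by
  rw [map_add, hL b hb h, hM b hb h]

lemma YOnly.sub {L M : R F} (hL : YOnly L) (hM : YOnly M) : YOnly (L - M) := fun b hb h => by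
  rw [map_sub, hL b hb h, hM b hb h]

lemma YOnly.mul {L M : R F} (hL : YOnly L) (hM : YOnly M) : YOnly (L * M) := fun b hb h => by
  rw [map_mul, hL b hb h, hM b hb h]

lemma YOnly.pow {L : R F} (hL : YOnly L) (n : ℕ) : YOnly (L ^ n) := fun b hb h => by
  rw [map_pow, hL b hb h]

lemma YOnly.one : YOnly (1 : R F) := fun b hb _ => by rw [map_one]

lemma aut_shear {L : R F} (hL : YOnly L) (h0 : constantCoeff L = 0) :
    ∃ φ : R F ≃ₐ[F] R F, φ (X 0) = X 0 + L ∧ φ (X 1) = X 1 := by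
  have ha : HasSubst (![X 0 + L, X 1] : Fin 2 → R F) := by
    apply hasSubst_of_constantCoeff_zero
    intro i; fin_cases i <;> simp [h0]
  have hb : HasSubst (![X 0 - L, X 1] : Fin 2 → R F) := by
    apply hasSubst_of_constantCoeff_zero
    intro i; fin_cases i <;> simp [h0]
  obtain ⟨φ, hφ⟩ := exists_aut (a := ![X 0 + L, X 1]) (b := ![X 0 - L, X 1]) ha hb
    (fun i => by
      fin_cases i
      · change substAlgHom (R := F) hb (X 0 + L) = X 0
        rw [map_add, hL _ hb rfl, substAlgHom_X]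
        simp
      · change substAlgHom (R := F) hb (X 1) = X 1
        rw [substAlgHom_X]
        rfl)
    (fun i => by
      fin_cases i
      · change substAlgHom (R := F) ha (X 0 - L) = X 0
        rw [map_sub, hL _ ha rfl, substAlgHom_X]
        simp
      · change substAlgHom (R := F) ha (X 1) = X 1
        rw [substAlgHom_X]
        rfl)
  exact ⟨φ, hφ 0, hφ 1⟩

lemma aut_unit {e : R F} (he : YOnly e) (h0 : constantCoeff e ≠ 0) :
    ∃ φ : R F ≃ₐ[F] R F, φ (X 0) = e * X 0 ∧ φ (X 1) = X 1 := by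
  have hinv : e * e⁻¹ = 1 := MvPowerSeries.mul_inv_cancel e h0
  have ha : HasSubst (![e * X 0, X 1] : Fin 2 → R F) := by
    apply hasSubst_of_constantCoeff_zero
    intro i; fin_cases i <;> simp
  have hb : HasSubst (![e⁻¹ * X 0, X 1] : Fin 2 → R F) := by
    apply hasSubst_of_constantCoeff_zero
    intro i; fin_cases i <;> simp
  obtain ⟨φ, hφ⟩ := exists_aut (a := ![e * X 0, X 1]) (b := ![e⁻¹ * X 0, X 1]) ha hb
    (fun i => by
      fin_cases i
      · change substAlgHom (R := F) hb (e * X 0) = X 0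
        rw [map_mul, he _ hb rfl, substAlgHom_X]
        change e * (e⁻¹ * X 0) = X 0
        rw [← mul_assoc, hinv, one_mul]
      · change substAlgHom (R := F) hb (X 1) = X 1
        rw [substAlgHom_X]
        rfl)
    (fun i => by
      fin_cases i
      · change substAlgHom (R := F) ha (e⁻¹ * X 0) = X 0
        rw [map_mul, substAlgHom_X]
        change substAlgHom (R := F) ha e⁻¹ * (e * X 0) = X 0
        have h1 : e * substAlgHom (R := F) ha e⁻¹ = 1 := by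
          have := congrArg (substAlgHom (R := F) ha) hinv
          rwa [map_mul, he _ ha rfl, map_one] at this
        linear_combination (X 0 : R F) * h1
      · change substAlgHom (R := F) ha (X 1) = X 1
        rw [substAlgHom_X]
        rfl)
  exact ⟨φ, hφ 0, hφ 1⟩

lemma aut_scale {β γ : F} (hβ : β ≠ 0) (hγ : γ ≠ 0) :
    ∃ φ : R F ≃ₐ[F] R F, φ (X 0) = C γ * X 0 ∧ φ (X 1) = C β * X 1 := by
  have ha : HasSubst (![C γ * X 0, C β * X 1] : Fin 2 → R F) := by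
    apply hasSubst_of_constantCoeff_zero
    intro i; fin_cases i <;> simp
  have hb : HasSubst (![C γ⁻¹ * X 0, C β⁻¹ * X 1] : Fin 2 → R F) := by
    apply hasSubst_of_constantCoeff_zero
    intro i; fin_cases i <;> simp
  have e1 : (C γ : R F) * C γ⁻¹ = 1 := by rw [← map_mul, mul_inv_cancel₀ hγ, map_one]
  have e2 : (C β : R F) * C β⁻¹ = 1 := by rw [← map_mul, mul_inv_cancel₀ hβ, map_one]
  obtain ⟨φ, hφ⟩ := exists_aut (a := ![C γ * X 0, C β * X 1])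
    (b := ![C γ⁻¹ * X 0, C β⁻¹ * X 1]) ha hb
    (fun i => by
      fin_cases i
      · change substAlgHom (R := F) hb (C γ * X 0) = X 0
        rw [map_mul, map_C, substAlgHom_X]
        change (C γ : R F) * (C γ⁻¹ * X 0) = X 0
        linear_combination (X 0 : R F) * e1
      · change substAlgHom (R := F) hb (C β * X 1) = X 1
        rw [map_mul, map_C, substAlgHom_X]
        change (C β : R F) * (C β⁻¹ * X 1) = X 1
        linear_combination (X 1 : R F) * e2)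
    (fun i => by
      fin_cases i
      · change substAlgHom (R := F) ha (C γ⁻¹ * X 0) = X 0
        rw [map_mul, map_C, substAlgHom_X]
        change (C γ⁻¹ : R F) * (C γ * X 0) = X 0
        linear_combination (X 0 : R F) * e1
      · change substAlgHom (R := F) ha (C β⁻¹ * X 1) = X 1
        rw [map_mul, map_C, substAlgHom_X]
        change (C β⁻¹ : R F) * (C β * X 1) = X 1
        linear_combination (X 1 : R F) * e2)
  exact ⟨φ, hφ 0, hφ 1⟩

/-! ### Odd characteristic -/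

/-- the first generator `x² + 2 λ y² x` -/
noncomputable def g₁ (lam : F) : R F := X 0 ^ 2 + C (2 * lam) * X 1 ^ 2 * X 0

/-- the second generator `y³ x + y^{q+7} (a₁ + a₂ y)`, `p = q + 2` -/
noncomputable def g₂ (q : ℕ) (a₁ a₂ : F) : R F :=
  X 1 ^ 3 * X 0 + X 1 ^ (q + 7) * (C a₁ + C a₂ * X 1)

lemma pow_mem (q : ℕ) {lam a₁ : F} (a₂ : F) (h2 : (2 : F) ≠ 0) (hl : lam ≠ 0) (ha : a₁ ≠ 0) :
    ∃ A B : R F, constantCoeff A = 0 ∧ constantCoeff B = 0 ∧
      X 1 ^ (q + 9) = A * g₁ lam + B * g₂ q a₁ a₂ := by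
  set w : R F := C a₁ + C a₂ * X 1 with hw
  set v : R F := (w * (C (2 * lam) - X 1 ^ (q + 2) * w))⁻¹ with hv
  have h0 : constantCoeff (w * (C (2 * lam) - X 1 ^ (q + 2) * w)) ≠ 0 := by
    rw [hw]
    simp [h2, hl, ha]
  have hinv : w * (C (2 * lam) - X 1 ^ (q + 2) * w) * v = 1 := MvPowerSeries.mul_inv_cancel _ h0
  refine ⟨-(X 1 ^ 3 * v), (X 1 ^ 2 * (C (2 * lam) - X 1 ^ (q + 2) * w) + X 0) * v, ?_, ?_, ?_⟩
  · simp
  · simp
  · unfold g₁ g₂
    rw [← hw]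
    linear_combination (-(X 1 ^ (q + 9) : R F)) * hinv

lemma pow_mem' (q : ℕ) {lam a₁ : F} (a₂ : F) (h2 : (2 : F) ≠ 0) (hl : lam ≠ 0) (ha : a₁ ≠ 0) :
    ∃ A B : R F, constantCoeff A = 0 ∧ constantCoeff B = 0 ∧
      X 1 ^ 5 * X 0 = A * g₁ lam + B * g₂ q a₁ a₂ := by
  obtain ⟨A, B, hA, hB, h⟩ := pow_mem q a₂ h2 hl ha
  refine ⟨-((C a₁ + C a₂ * X 1) * A), X 1 ^ 2 - (C a₁ + C a₂ * X 1) * B, by simp [hA],
    by simp [hB], ?_⟩
  unfold g₂ at *
  linear_combination (-(C a₁ + C a₂ * X 1 : R F)) * h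

lemma step1 (q : ℕ) {lam a : F} (b : F) (h2 : (2 : F) ≠ 0) (hl : lam ^ 2 = -1) (ha : a ≠ 0) :
    CE (germ (q + 2) lam a b 0) (germ (q + 2) lam a b 1) (g₁ lam) (g₂ q a 1) := by
  have hl0 : lam ≠ 0 := by rintro rfl; norm_num at hl
  have hlC : (C lam : R F) ^ 2 = -1 := by rw [← map_pow, hl]; simp
  obtain ⟨φ, hφ0, hφ1⟩ := aut_shear (L := (C lam * X 1 ^ 2 : R F))
    ((YOnly.C lam).mul (YOnly.X.pow 2)) (by simp)
  obtain ⟨A, B, -, hB, hAB⟩ := pow_mem q (1 : F) h2 hl0 ha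
  have e1 : φ (germ (q + 2) lam a b 0) = g₁ lam := by
    simp only [germ, g₁, Matrix.cons_val_zero, map_add, map_pow, hφ0, hφ1, map_mul, map_ofNat]
    linear_combination (X 1 ^ 4 : R F) * hlC
  set Z : R F := C b + C lam * (C a + X 1) * (C a + X 1 + C b * X 1 ^ (q + 2)) with hZ
  set E : R F := C lam + (C a * X 1 ^ (q + 2) + X 1 ^ (q + 3) + C b * X 1 ^ (2 * q + 4)) with hE
  have e2 : φ (germ (q + 2) lam a b 1) =
      E * g₂ q a 1 + C lam * X 1 ^ q * Z * X 1 ^ (q + 9) := by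
    simp only [germ, g₂, Matrix.cons_val_one, Matrix.cons_val_fin_one, map_add, map_pow, hφ0,
      hφ1, map_mul, map_C', hE, hZ, map_one]
    linear_combination (X 1 ^ 5 - X 1 ^ (2 * q + 9) * (C a + X 1) *
      (C a + X 1 + C b * X 1 ^ (q + 2)) : R F) * hlC
  have s1 : CE (germ (q + 2) lam a b 0) (germ (q + 2) lam a b 1)
    (φ (germ (q + 2) lam a b 0)) (φ (germ (q + 2) lam a b 1)) := CE.of_aut φ
  refine s1.trans (CE.symm (CE.of_coeffs 1 0 (C lam * X 1 ^ q * Z * A)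
    (E + C lam * X 1 ^ q * Z * B) ?_ ?_ ?_))
  · simp [hE, hB, hl0]
  · rw [e1]; ring
  · rw [e2, hAB]; ring

/-- the automorphism `x ↦ (1 + c y) x + κ y^{q+5} + κ₂ y^{q+6}` -/
lemma step2 (q : ℕ) {lam a₁ : F} (a₂ c : F) (hq : q ≠ 0) (h2 : (2 : F) ≠ 0) (hl : lam ≠ 0)
    (ha : a₁ ≠ 0) : CE (g₁ lam) (g₂ q a₁ a₂) (g₁ lam) (g₂ q a₁ (a₂ - 2 * c * a₁)) := by
  set d : F := a₂ - 2 * c * a₁ with hd
  set K : R F := X 1 ^ (q + 5) * (C (-(c * a₁)) + C (-(c * d) - c ^ 2 * a₁) * X 1) with hK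
  have hKy : YOnly K := (YOnly.X.pow _).mul ((YOnly.C _).add ((YOnly.C _).mul YOnly.X))
  obtain ⟨φ, hφ0, hφ1⟩ := aut_unit (e := (1 + C c * X 1 : R F))
    (YOnly.one.add ((YOnly.C c).mul YOnly.X)) (by simp)
  obtain ⟨ψ, hψ0, hψ1⟩ := aut_shear hKy (by simp [hK])
  obtain ⟨A, B, hA, hB, hAB⟩ := pow_mem q d h2 hl ha
  obtain ⟨A', B', hA', hB', hAB'⟩ := pow_mem' q d h2 hl ha
  have hφK : φ K = K := by simp [hK, hφ1, map_C']
  have h0 : (ψ.trans φ) (X 0) = (1 + C c * X 1) * X 0 + K := by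
    rw [AlgEquiv.trans_apply, hψ0, map_add, hφ0, hφK]
  have h1 : (ψ.trans φ) (X 1) = X 1 := by
    rw [AlgEquiv.trans_apply, hψ1, hφ1]
  set Φ := ψ.trans φ with hΦ
  have s1 : CE (g₁ lam) (g₂ q a₁ a₂) (Φ (g₁ lam)) (Φ (g₂ q a₁ a₂)) := CE.of_aut Φ
  set M : R F := C (-(c * a₁)) + C (-(c * d) - c ^ 2 * a₁) * X 1 with hM
  have e1 : Φ (g₁ lam) = (1 + C c * X 1) ^ 2 * g₁ lam
      - C (2 * lam * c) * (1 + C c * X 1) * g₂ q a₁ d
      + (C (2 * lam * c ^ 2 * d) + X 1 ^ (q + 1) * M ^ 2) * X 1 ^ (q + 9)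
      + 2 * (1 + C c * X 1) * X 1 ^ q * M * (X 1 ^ 5 * X 0) := by
    simp only [g₁, g₂, map_add, map_mul, map_pow, h0, h1, map_C', hK, hM, map_neg, map_sub,
      map_ofNat]
    ring
  have e2 : Φ (g₂ q a₁ a₂) = (1 + C c * X 1) * g₂ q a₁ d
      - C (2 * c * d + c ^ 2 * a₁) * X 1 ^ (q + 9) := by
    have hda : a₂ = d + 2 * c * a₁ := by rw [hd]; ring
    rw [hda]
    simp only [g₂, map_add, map_mul, map_pow, h0, h1, map_C', hK, hM, map_neg, map_sub,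
      map_ofNat]
    ring
  refine s1.trans (CE.symm (CE.of_coeffs
    ((1 + C c * X 1) ^ 2 + (C (2 * lam * c ^ 2 * d) + X 1 ^ (q + 1) * M ^ 2) * A
      + 2 * (1 + C c * X 1) * X 1 ^ q * M * A')
    (- C (2 * lam * c) * (1 + C c * X 1) + (C (2 * lam * c ^ 2 * d) + X 1 ^ (q + 1) * M ^ 2) * B
      + 2 * (1 + C c * X 1) * X 1 ^ q * M * B')
    (- C (2 * c * d + c ^ 2 * a₁) * A)
    ((1 + C c * X 1) - C (2 * c * d + c ^ 2 * a₁) * B) ?_ ?_ ?_))
  · simp [hA, hB, hA', hB', hq]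
  · rw [e1, hAB, hAB']; ring
  · rw [e2, hAB]; ring

/-- scaling -/
lemma step3 (q : ℕ) {lam a₁ β : F} (a₂ : F) (hβ : β ≠ 0) :
    CE (g₁ lam) (g₂ q a₁ a₂) (g₁ lam) (g₂ q (β ^ (q + 2) * a₁) (β ^ (q + 3) * a₂)) := by
  obtain ⟨φ, hφ0, hφ1⟩ := aut_scale hβ (pow_ne_zero 2 hβ)
  have hβ' : (C β : R F) * C β⁻¹ = 1 := by rw [← map_mul, mul_inv_cancel₀ hβ, map_one]
  have s1 : CE (g₁ lam) (g₂ q a₁ a₂) (φ (g₁ lam)) (φ (g₂ q a₁ a₂)) := CE.of_aut φ
  refine s1.trans (CE.symm (CE.of_coeffs (C (β ^ 4)) 0 0 (C (β ^ 5)) ?_ ?_ ?_))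
  · simp [hβ]
  · simp only [g₁, map_add, map_mul, map_pow, hφ0, hφ1, map_C', map_ofNat]
    ring
  · simp only [g₂, map_add, map_mul, map_pow, hφ0, hφ1, map_C']
    ring

/-- all germs `f_{a,b}` with `a ≠ 0` are contact equivalent, `p ≠ 2` -/
lemma odd_case [IsAlgClosed F] (q : ℕ) (hq : q ≠ 0) (h2 : (2 : F) ≠ 0) {lam : F}
    (hl : lam ^ 2 = -1) {a c : F} (b d : F) (ha : a ≠ 0) (hc : c ≠ 0) :
    CE (germ (q + 2) lam a b 0) (germ (q + 2) lam a b 1)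
      (germ (q + 2) lam c d 0) (germ (q + 2) lam c d 1) := by
  have hl0 : lam ≠ 0 := by rintro rfl; norm_num at hl
  obtain ⟨β, hβ⟩ := IsAlgClosed.exists_pow_nat_eq (c / a) (show 0 < q + 2 by omega)
  have hβ0 : β ≠ 0 := by
    rintro rfl
    rw [zero_pow (by omega)] at hβ
    exact div_ne_zero hc ha hβ.symm
  have hβc : β ^ (q + 2) * a = c := by rw [hβ]; field_simp
  have t := step3 q (lam := lam) (a₁ := a) (β := β) 1 hβ0
  rw [hβc] at t
  have t2 := step2 q (lam := lam) (a₁ := c) (β ^ (q + 3) * 1) ((β ^ (q + 3) - 1) / (2 * c)) hq h2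
    hl0 hc
  have e : β ^ (q + 3) * 1 - 2 * ((β ^ (q + 3) - 1) / (2 * c)) * c = 1 := by
    field_simp; ring
  rw [e] at t2
  exact ((step1 q b h2 hl ha).trans (t.trans t2)).trans (step1 q d h2 hl hc).symm

/-! ### Characteristic two -/

lemma char_two_step {lam a : F} (b : F) (h2 : (2 : F) = 0) (hl : lam ^ 2 = -1) (ha : a ≠ 0) :
    CE (X 0 ^ 2 : R F) (X 1 ^ 3 * X 0 + X 1 ^ 7) (germ 2 lam a b 0) (germ 2 lam a b 1) := by
  have hl1 : lam = 1 := by
    have : (lam - 1) ^ 2 = 0 := by linear_combination hl - lam * h2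
    have := pow_eq_zero_iff (two_ne_zero) |>.1 this
    linear_combination this
  subst hl1
  have h2C : (2 : R F) = 0 := by
    have : (C (2 : F) : R F) = C 0 := by rw [h2]
    rwa [map_ofNat, map_zero] at this
  set ε : R F := 1 + C a * X 1 ^ 2 + X 1 ^ 3 + C b * X 1 ^ 4 with hε
  set w : R F := C a + X 1 + C b * X 1 ^ 2 with hw
  have hεy : YOnly ε := ((YOnly.one.add ((YOnly.C a).mul (YOnly.X.pow 2))).add
    (YOnly.X.pow 3)).add ((YOnly.C b).mul (YOnly.X.pow 4))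
  have hwy : YOnly w := ((YOnly.C a).add YOnly.X).add ((YOnly.C b).mul (YOnly.X.pow 2))
  have hε0 : constantCoeff ε ≠ 0 := by simp [hε]
  have hw0 : constantCoeff w ≠ 0 := by simp [hw, ha]
  obtain ⟨φ, hφ0, hφ1⟩ := aut_unit hεy hε0
  obtain ⟨ψ, hψ0, hψ1⟩ := aut_unit hwy hw0
  obtain ⟨χ, hχ0, hχ1⟩ := aut_shear (L := (X 1 ^ 2 : R F)) (YOnly.X.pow 2) (by simp)
  -- from `(x², y³ x + y⁷)` to `(x², ε y³ x + y⁷)`
  have s1 : CE (X 0 ^ 2 : R F) (X 1 ^ 3 * X 0 + X 1 ^ 7) (X 0 ^ 2) (ε * X 1 ^ 3 * X 0 + X 1 ^ 7) := by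
    refine (CE.of_aut φ).trans (CE.symm (CE.of_coeffs (ε ^ 2) 0 0 1 ?_ ?_ ?_))
    · simpa using hε0
    · simp only [map_pow, hφ0]; ring
    · simp only [map_pow, hφ0, hφ1, map_add, map_mul]; ring
  -- from `(x², ε y³ x + y⁷)` to `(x², ε y³ x + y⁷ w)`
  have hψε : ψ ε = ε := by simp [hε, hψ1, map_C']
  have hψw : ψ w = w := by simp [hw, hψ1, map_C']
  have s2 : CE (X 0 ^ 2 : R F) (ε * X 1 ^ 3 * X 0 + X 1 ^ 7 * w) (X 0 ^ 2)
      (ε * X 1 ^ 3 * X 0 + X 1 ^ 7) := by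
    refine (CE.of_aut ψ).trans (CE.symm (CE.of_coeffs (w ^ 2) 0 0 w ?_ ?_ ?_))
    · simpa using hw0
    · simp only [map_pow, hψ0]; ring
    · simp only [map_pow, hψ0, hψ1, map_add, map_mul, hψε, hψw]; ring
  -- the coordinate change `x ↦ x + y²`
  have s3 : CE (germ 2 (1 : F) a b 0) (germ 2 1 a b 1) (X 0 ^ 2)
      (ε * X 1 ^ 3 * X 0 + X 1 ^ 7 * w) := by
    refine (CE.of_aut χ).trans (CE.symm (CE.of_coeffs 1 0 0 1 (by simp) ?_ ?_))
    · simp only [germ, Matrix.cons_val_zero, map_add, map_pow, hχ0, hχ1]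
      linear_combination (X 1 ^ 4 + X 0 * X 1 ^ 2 : R F) * h2C
    · simp only [germ, Matrix.cons_val_one, Matrix.cons_val_fin_one, map_add, map_pow, hχ0, hχ1,
        map_mul, map_C', map_one, hε, hw]
      linear_combination (X 1 ^ 5 : R F) * h2C
  exact s1.trans (s2.symm.trans s3.symm)

/-! ### The result -/

lemma all_equiv [IsAlgClosed F] {p : ℕ} (hp : p.Prime) [CharP F p] {lam : F}
    (hl : lam ^ 2 = -1) {a c : F} (b d : F) (ha : a ≠ 0) (hc : c ≠ 0) :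
    ContactEquiv (germ p lam a b) (germ p lam c d) := by
  apply contactEquiv_of_CE
  rcases hp.eq_two_or_odd' with h | h
  · subst h
    have h2 : (2 : F) = 0 := by exact_mod_cast CharP.cast_eq_zero F 2
    exact (char_two_step b h2 hl ha).symm.trans (char_two_step d h2 hl hc)
  · have h3 : 3 ≤ p := by
      rcases h with ⟨k, hk⟩
      have := hp.two_le
      omega
    obtain ⟨q, rfl⟩ : ∃ q, p = q + 2 := ⟨p - 2, by omega⟩
    have h2 : (2 : F) ≠ 0 := by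
      intro h0
      have h1 : ((2 : ℕ) : F) = 0 := by exact_mod_cast h0
      rw [CharP.cast_eq_zero_iff F (q + 2)] at h1
      have := Nat.le_of_dvd (by norm_num) h1
      omega
    exact odd_case q (by omega) h2 hl b d ha hc

/-- In every characteristic `p`, all germs `f_{a,b}` with `a ≠ 0` are contact equivalent; hence every
nonempty Zariski-open subset of `F⁴` contains a point `(a, b, c, d)` with `f_{a,b} ∼ f_{c,d}`. -/
theorem result (p : ℕ) (hp : p.Prime) (F : Type v) [Field F] [IsAlgClosed F] [CharP F p]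
    (lam : F) (hl : lam ^ 2 = -1) :
    (∀ a b c d : F, a ≠ 0 → c ≠ 0 → ContactEquiv (germ p lam a b) (germ p lam c d)) ∧
    ∀ V : Set (Fin 4 → F), ZariskiOpen V → V.Nonempty →
      ∃ v ∈ V, ContactEquiv (germ p lam (v 0) (v 1)) (germ p lam (v 2) (v 3)) := by
  have h1 : ∀ a b c d : F, a ≠ 0 → c ≠ 0 → ContactEquiv (germ p lam a b) (germ p lam c d) :=
    fun a b c d ha hc => all_equiv hp hl b d ha hc
  refine ⟨h1, ?_⟩
  rintro V ⟨S, rfl⟩ ⟨v₀, P, hP, hv₀⟩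
  have hinf : Infinite F := IsAlgClosed.instInfinite
  have hP0 : P ≠ 0 := by rintro rfl; simp at hv₀
  have hne : P * (MvPolynomial.X 0 * MvPolynomial.X 2) ≠ 0 :=
    mul_ne_zero hP0 (mul_ne_zero (MvPolynomial.X_ne_zero 0) (MvPolynomial.X_ne_zero 2))
  obtain ⟨v, hv⟩ : ∃ v : Fin 4 → F,
      MvPolynomial.eval v (P * (MvPolynomial.X 0 * MvPolynomial.X 2)) ≠ 0 := by
    by_contra hc
    push Not at hc
    exact hne (MvPolynomial.funext fun v => by rw [hc v, map_zero])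
  simp only [map_mul, MvPolynomial.eval_X] at hv
  exact ⟨v, ⟨P, hP, left_ne_zero_of_mul hv⟩, h1 _ _ _ _
    (left_ne_zero_of_mul (right_ne_zero_of_mul hv))
    (right_ne_zero_of_mul (right_ne_zero_of_mul hv))⟩

end Pool.Agent.Results.MP_65bbe4_ag.OneContactClass
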